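import Pool.Agent.SGY.Stmts

/-!
# SGY.FPL (helper95): if all faces of a triangulated triangle are positive, its edges do not cross
-/

open scoped BigOperators

noncomputable section

namespace Pool.Agent.SGY.H95

open Pool.Agent.SGE Pool.Agent.SGP

/-! ### Crossing numbers -/

open Classical in
/-- the crossing number of the vertical ray from `P` with the directed segment `u v` -/
def chi (P u v : ℝ × ℝ) : ℤ :=
  if 0 < P.1 - u.1 ∧ P.1 - v.1 < 0 ∧ 0 < o P u v then 1
  else if P.1 - u.1 < 0 ∧ 0 < P.1 - v.1 ∧ o P u v < 0 then -1 else 0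

/-- `P` is inside the triangle -/
def ind (P u v w : ℝ × ℝ) : Prop := 0 < o P u v ∧ 0 < o P v w ∧ 0 < o P w u

theorem o_swap (P u v : ℝ × ℝ) : o P v u = - o P u v := by
  unfold o
  ring

theorem chi_anti (P u v : ℝ × ℝ) : chi P v u = - chi P u v := by
  unfold chi
  rw [o_swap P u v]
  by_cases h1 : 0 < P.1 - u.1 ∧ P.1 - v.1 < 0 ∧ 0 < o P u v
  · rw [if_pos h1]
    have h2 : ¬ (0 < P.1 - v.1 ∧ P.1 - u.1 < 0 ∧ 0 < - o P u v) := by
      rintro ⟨h, _, _⟩
      linarith [h1.2.1]
    have h3 : P.1 - v.1 < 0 ∧ 0 < P.1 - u.1 ∧ - o P u v < 0 := ⟨h1.2.1, h1.1, by linarith [h1.2.2]⟩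
    rw [if_neg h2, if_pos h3]
  · rw [if_neg h1]
    have h3 : ¬ (P.1 - v.1 < 0 ∧ 0 < P.1 - u.1 ∧ - o P u v < 0) := by
      rintro ⟨h, h', h''⟩
      exact h1 ⟨h', h, by linarith⟩
    by_cases h2 : P.1 - u.1 < 0 ∧ 0 < P.1 - v.1 ∧ o P u v < 0
    · have h4 : 0 < P.1 - v.1 ∧ P.1 - u.1 < 0 ∧ 0 < - o P u v := ⟨h2.2.1, h2.1, by linarith [h2.2.2]⟩
      rw [if_pos h2, if_pos h4, neg_neg]
    · have h4 : ¬ (0 < P.1 - v.1 ∧ P.1 - u.1 < 0 ∧ 0 < - o P u v) := by
        rintro ⟨h, h', h''⟩
        exact h2 ⟨h', h, by linarith⟩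
      rw [if_neg h4, if_neg h3, if_neg h2, neg_zero]

open Classical in
theorem chi_tri_aux (a b c A B C : ℝ) (ha : a ≠ 0) (hb : b ≠ 0) (hc : c ≠ 0) (hA : A ≠ 0)
    (hB : B ≠ 0) (hC : C ≠ 0) (h1 : 0 < A + B + C) (h2 : a * B + b * C + c * A = 0) :
    (if 0 < a ∧ b < 0 ∧ 0 < A then (1 : ℤ) else if a < 0 ∧ 0 < b ∧ A < 0 then -1 else 0) +
    (if 0 < b ∧ c < 0 ∧ 0 < B then (1 : ℤ) else if b < 0 ∧ 0 < c ∧ B < 0 then -1 else 0) +
    (if 0 < c ∧ a < 0 ∧ 0 < C then (1 : ℤ) else if c < 0 ∧ 0 < a ∧ C < 0 then -1 else 0) =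
    if 0 < A ∧ 0 < B ∧ 0 < C then 1 else 0 := by
  rcases lt_or_gt_of_ne ha with a1 | a1 <;> rcases lt_or_gt_of_ne hb with b1 | b1 <;>
  rcases lt_or_gt_of_ne hc with c1 | c1 <;> rcases lt_or_gt_of_ne hA with A1 | A1 <;>
  rcases lt_or_gt_of_ne hB with B1 | B1 <;> rcases lt_or_gt_of_ne hC with C1 | C1 <;>
  first
  | (simp [a1, b1, c1, A1, B1, C1, not_lt.2 a1.le, not_lt.2 b1.le, not_lt.2 c1.le,
      not_lt.2 A1.le, not_lt.2 B1.le, not_lt.2 C1.le]; done)
  | (exfalso; linarith)
  | (exfalso; nlinarith [mul_pos a1 B1, mul_pos b1 C1, mul_pos c1 A1])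
  | (exfalso; nlinarith)

/-- `P` is on no line and on no vertical line -/
structure Gnr (P u v w : ℝ × ℝ) : Prop where
  u1 : P.1 - u.1 ≠ 0
  v1 : P.1 - v.1 ≠ 0
  w1 : P.1 - w.1 ≠ 0
  uv : o P u v ≠ 0
  vw : o P v w ≠ 0
  wu : o P w u ≠ 0

open Classical in
theorem chi_tri {P u v w : ℝ × ℝ} (h : Gnr P u v w) (hp : 0 < o u v w) :
    chi P u v + chi P v w + chi P w u = if ind P u v w then 1 else 0 := by
  have h1 : 0 < o P u v + o P v w + o P w u := by
    have e : o P u v + o P v w + o P w u = o u v w := by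
      unfold o
      ring
    rw [e]
    exact hp
  have h2 : (P.1 - u.1) * o P v w + (P.1 - v.1) * o P w u + (P.1 - w.1) * o P u v = 0 := by
    unfold o
    ring
  have h3 := chi_tri_aux _ _ _ _ _ _ h.u1 h.v1 h.w1 h.uv h.vw h.wu h1 h2
  by_cases hi : ind P u v w
  · rw [if_pos hi]
    rw [if_pos (show 0 < o P u v ∧ 0 < o P v w ∧ 0 < o P w u from hi)] at h3
    exact h3
  · rw [if_neg hi]
    rw [if_neg (show ¬ (0 < o P u v ∧ 0 < o P v w ∧ 0 < o P w u) from hi)] at h3
    exact h3

/-! ### The left faces of the edges -/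

theorem chain_next {V : Type} (R : V → V → Prop) : ∀ l : List V, l.IsChain R → ∀ q ∈ l,
    l.getLast? = some q ∨ ∃ r, R q r := by
  intro l
  induction l with
  | nil => intro _ q hq; simp at hq
  | cons a l ih =>
    intro hc q hq
    cases l with
    | nil =>
      left
      rw [List.mem_singleton] at hq
      rw [hq]
      rfl
    | cons b l =>
      rw [List.isChain_cons_cons] at hc
      rw [List.mem_cons] at hq
      rcases hq with rfl | hq
      · exact Or.inr ⟨b, hc.1⟩
      · rw [List.getLast?_cons_cons]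
        exact ih hc.2 q hq

theorem fan_face {V : Type} {E : V → V → Prop} {F : V → V → V → Prop} {x w y : V}
    (h : Fan E F x w y) : E w y ∧ (∀ z, ¬ F w y z) ∧ ∀ q, E w q → q = y ∨ ∃ r, F w q r := by
  obtain ⟨l, hx, hy, hc, hn, hE, hf⟩ := h
  refine ⟨(hE y).2 (List.mem_of_getLast? hy), hf, fun q hq => ?_⟩
  rcases chain_next (F w) l hc q ((hE q).1 hq) with h1 | h1
  · left
    rw [hy] at h1
    exact (Option.some.inj h1).symm
  · exact Or.inr h1

theorem cyc_face {V : Type} {E : V → V → Prop} {F : V → V → V → Prop} {z v : V}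
    (h : Cyc E F z v) : ∃ r, F z v r := by
  obtain ⟨l, hc, _, _⟩ := h
  cases l with
  | nil =>
    rw [List.nil_append, List.isChain_cons_cons] at hc
    exact ⟨v, hc.1⟩
  | cons b l =>
    rw [List.cons_append, List.isChain_cons_cons] at hc
    exact ⟨b, hc.1⟩

section faces

variable {V : Type} [Fintype V] {a b c : V} {E : V → V → Prop} {F : V → V → V → Prop}

theorem nt_fans (h : NT a b [a, c, b] E F) : Fan E F b a c ∧ Fan E F a c b ∧ Fan E F c b a := by
  have h1 := h.bd
  simp only [List.cons_append, List.nil_append, Tri] at h1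
  exact ⟨h1.1, h1.2.1, h1.2.2.1⟩

/-- every directed edge has a face on the left, except the three outer ones -/
theorem face_ex (h : NT a b [a, c, b] E F) (p q : V) (hpq : E p q) :
    (p = b ∧ q = a) ∨ (p = a ∧ q = c) ∨ (p = c ∧ q = b) ∨ ∃ r, F p q r := by
  obtain ⟨h1, h2, h3⟩ := nt_fans h
  by_cases ha : p = a
  · subst ha
    rcases (fan_face h1).2.2 q hpq with h4 | h4
    · exact Or.inr (Or.inl ⟨rfl, h4⟩)
    · exact Or.inr (Or.inr (Or.inr h4))
  by_cases hc : p = c
  · subst hc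
    rcases (fan_face h2).2.2 q hpq with h4 | h4
    · exact Or.inr (Or.inr (Or.inl ⟨rfl, h4⟩))
    · exact Or.inr (Or.inr (Or.inr h4))
  by_cases hb : p = b
  · subst hb
    rcases (fan_face h3).2.2 q hpq with h4 | h4
    · exact Or.inl ⟨rfl, h4⟩
    · exact Or.inr (Or.inr (Or.inr h4))
  refine Or.inr (Or.inr (Or.inr ?_))
  refine cyc_face (h.int p q ?_ hpq)
  simp only [List.mem_cons, List.not_mem_nil, or_false, not_or]
  exact ⟨ha, hc, hb⟩

end faces

/-! ### Sums over the faces -/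

section sums

variable {V : Type} [Fintype V] {a b c : V} {E : V → V → Prop} {F : V → V → V → Prop}

theorem sum_rot (G : V → V → V → ℤ) :
    ∑ u, ∑ v, ∑ w, G v w u = ∑ u, ∑ v, ∑ w, G u v w := by
  rw [Finset.sum_comm]
  refine Finset.sum_congr rfl fun v _ => ?_
  rw [Finset.sum_comm]

open Classical in
theorem sum_faces (h : NT a b [a, c, b] E F) (hac : a ≠ c) (hbc : b ≠ c) (X : V → V → ℤ)
    (hX : ∀ u v, X v u = - X u v) :
    ∑ u, ∑ v, ∑ w, (if F u v w then X u v else 0) = X a b + X b c + X c a := by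
  obtain ⟨h1, h2, h3⟩ := nt_fans h
  have hab : a ≠ b := h.ab
  have f1 := fan_face h1
  have f2 := fan_face h2
  have f3 := fan_face h3
  -- the inner sum
  have e1 : ∀ u v, ∑ w, (if F u v w then X u v else 0) = if ∃ w, F u v w then X u v else 0 := by
    intro u v
    by_cases hw : ∃ w, F u v w
    · rw [if_pos hw]
      obtain ⟨w, hw⟩ := hw
      rw [Finset.sum_eq_single w]
      · rw [if_pos hw]
      · intro w' _ hne
        rw [if_neg]
        intro hw'
        exact hne (h.fn u v w' w hw' hw)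
      · intro hn
        exact absurd (Finset.mem_univ w) hn
    · rw [if_neg hw]
      refine Finset.sum_eq_zero fun w _ => ?_
      rw [if_neg]
      intro hw'
      exact hw ⟨w, hw'⟩
  -- comparison with the sum over the edges
  have e2 : ∀ u v, (if ∃ w, F u v w then X u v else 0) = (if E u v then X u v else 0) -
      (if u = b then (if v = a then X b a else 0) else 0) -
      (if u = a then (if v = c then X a c else 0) else 0) -
      (if u = c then (if v = b then X c b else 0) else 0) := by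
    intro u v
    by_cases hE : E u v
    · rw [if_pos hE]
      rcases face_ex h u v hE with ⟨rfl, rfl⟩ | ⟨rfl, rfl⟩ | ⟨rfl, rfl⟩ | hr
      · rw [if_neg (fun ⟨w, hw⟩ => f3.2.1 w hw), if_pos rfl, if_pos rfl, if_neg hab.symm,
          if_neg hbc]
        ring
      · rw [if_neg (fun ⟨w, hw⟩ => f1.2.1 w hw), if_neg hab, if_pos rfl, if_pos rfl,
          if_neg hac]
        ring
      · rw [if_neg (fun ⟨w, hw⟩ => f2.2.1 w hw), if_neg hbc.symm, if_neg hac.symm,
          if_pos rfl, if_pos rfl]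
        ring
      · rw [if_pos hr]
        obtain ⟨w, hw⟩ := hr
        have g1 : ¬ (u = b ∧ v = a) := by
          rintro ⟨rfl, rfl⟩
          exact f3.2.1 w hw
        have g2 : ¬ (u = a ∧ v = c) := by
          rintro ⟨rfl, rfl⟩
          exact f1.2.1 w hw
        have g3 : ¬ (u = c ∧ v = b) := by
          rintro ⟨rfl, rfl⟩
          exact f2.2.1 w hw
        have g1' : (if u = b then (if v = a then X b a else 0) else 0) = 0 := by
          split_ifs with k1 k2
          · exact absurd ⟨k1, k2⟩ g1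
          · rfl
          · rfl
        have g2' : (if u = a then (if v = c then X a c else 0) else 0) = 0 := by
          split_ifs with k1 k2
          · exact absurd ⟨k1, k2⟩ g2
          · rfl
          · rfl
        have g3' : (if u = c then (if v = b then X c b else 0) else 0) = 0 := by
          split_ifs with k1 k2
          · exact absurd ⟨k1, k2⟩ g3
          · rfl
          · rfl
        rw [g1', g2', g3']
        ring
    · have g0 : ¬ ∃ w, F u v w := fun ⟨w, hw⟩ => hE (h.fe u v w hw)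
      rw [if_neg hE, if_neg g0]
      have g1' : (if u = b then (if v = a then X b a else 0) else 0) = 0 := by
        split_ifs with k1 k2
        · subst k1
          subst k2
          exact absurd f3.1 hE
        · rfl
        · rfl
      have g2' : (if u = a then (if v = c then X a c else 0) else 0) = 0 := by
        split_ifs with k1 k2
        · subst k1
          subst k2
          exact absurd f1.1 hE
        · rfl
        · rfl
      have g3' : (if u = c then (if v = b then X c b else 0) else 0) = 0 := by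
        split_ifs with k1 k2
        · subst k1
          subst k2
          exact absurd f2.1 hE
        · rfl
        · rfl
      rw [g1', g2', g3']
      ring
  have e3 : ∑ u, ∑ v, (if E u v then X u v else 0) = 0 := by
    have h5 : ∑ u, ∑ v, (if E u v then X u v else 0) =
        - ∑ u, ∑ v, (if E u v then X u v else 0) := by
      conv_lhs => rw [Finset.sum_comm]
      rw [← Finset.sum_neg_distrib]
      refine Finset.sum_congr rfl fun u _ => ?_
      rw [← Finset.sum_neg_distrib]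
      refine Finset.sum_congr rfl fun v _ => ?_
      by_cases hE : E u v
      · rw [if_pos hE, if_pos (h.sym u v hE), hX u v]
      · rw [if_neg hE, if_neg (fun h' => hE (h.sym v u h')), neg_zero]
    omega
  have e4 : ∀ (p q : V) (K : ℤ), ∑ u, ∑ v, (if u = p then (if v = q then K else 0) else 0) = K := by
    intro p q K
    rw [Finset.sum_eq_single p]
    · rw [Finset.sum_eq_single q]
      · rw [if_pos rfl, if_pos rfl]
      · intro v _ hv
        rw [if_pos rfl, if_neg hv]
      · intro hn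
        exact absurd (Finset.mem_univ q) hn
    · intro u _ hu
      refine Finset.sum_eq_zero fun v _ => ?_
      rw [if_neg hu]
    · intro hn
      exact absurd (Finset.mem_univ p) hn
  simp_rw [e1, e2]
  simp only [Finset.sum_sub_distrib]
  rw [e3, e4, e4, e4, hX a b, hX c a, hX b c]
  ring

end sums

/-! ### Generic points -/

theorem dense_affine (α β γ : ℝ) (h : α ≠ 0 ∨ β ≠ 0) :
    Dense {P : ℝ × ℝ | α * P.1 + β * P.2 + γ ≠ 0} := by
  intro P
  by_cases h0 : α * P.1 + β * P.2 + γ = 0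
  · have hc : Continuous (fun ε : ℝ => (P.1 + ε * α, P.2 + ε * β)) := by fun_prop
    have h1 := map_mem_closure (s := ({0}ᶜ : Set ℝ))
      (t := {P : ℝ × ℝ | α * P.1 + β * P.2 + γ ≠ 0}) hc (dense_compl_singleton (0 : ℝ) 0) (by
      intro ε hε
      show α * (P.1 + ε * α) + β * (P.2 + ε * β) + γ ≠ 0
      have e : α * (P.1 + ε * α) + β * (P.2 + ε * β) + γ = ε * (α * α + β * β) := by
        linear_combination h0
      rw [e]
      refine mul_ne_zero hε ?_
      rcases h with h | h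
      · nlinarith [mul_self_pos.2 h, mul_self_nonneg β]
      · nlinarith [mul_self_pos.2 h, mul_self_nonneg α])
    simpa using h1
  · exact subset_closure h0

theorem dense_gen {V : Type} [Fintype V] (f : V → ℝ × ℝ) :
    Dense {P : ℝ × ℝ | (∀ u v, f u ≠ f v → o P (f u) (f v) ≠ 0) ∧ ∀ u, P.1 - (f u).1 ≠ 0} := by
  have h1 : Dense (⋂ i : (V × V) ⊕ V, (match i with
      | Sum.inl p => {P : ℝ × ℝ | f p.1 ≠ f p.2 → o P (f p.1) (f p.2) ≠ 0}
      | Sum.inr u => {P : ℝ × ℝ | P.1 - (f u).1 ≠ 0})) := by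
    refine dense_iInter_of_isOpen ?_ ?_
    · rintro (p | u)
      · show IsOpen {P : ℝ × ℝ | f p.1 ≠ f p.2 → o P (f p.1) (f p.2) ≠ 0}
        by_cases hp : f p.1 = f p.2
        · have : {P : ℝ × ℝ | f p.1 ≠ f p.2 → o P (f p.1) (f p.2) ≠ 0} = Set.univ :=
            Set.eq_univ_of_forall fun P h => absurd hp h
          rw [this]
          exact isOpen_univ
        · have : {P : ℝ × ℝ | f p.1 ≠ f p.2 → o P (f p.1) (f p.2) ≠ 0} =
              {P : ℝ × ℝ | o P (f p.1) (f p.2) ≠ 0} := by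
            ext P
            exact ⟨fun h => h hp, fun h _ => h⟩
          rw [this]
          refine isOpen_ne_fun ?_ continuous_const
          unfold o
          fun_prop
      · show IsOpen {P : ℝ × ℝ | P.1 - (f u).1 ≠ 0}
        exact isOpen_ne_fun (by fun_prop) continuous_const
    · rintro (p | u)
      · show Dense {P : ℝ × ℝ | f p.1 ≠ f p.2 → o P (f p.1) (f p.2) ≠ 0}
        by_cases hp : f p.1 = f p.2
        · have : {P : ℝ × ℝ | f p.1 ≠ f p.2 → o P (f p.1) (f p.2) ≠ 0} = Set.univ :=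
            Set.eq_univ_of_forall fun P h => absurd hp h
          rw [this]
          exact dense_univ
        · have h2 := dense_affine ((f p.1).2 - (f p.2).2) ((f p.2).1 - (f p.1).1)
            ((f p.1).1 * (f p.2).2 - (f p.1).2 * (f p.2).1) (by
              by_contra hcon
              rw [not_or, not_not, not_not] at hcon
              exact hp (Prod.ext (by linarith [hcon.2]) (by linarith [hcon.1])))
          refine h2.mono ?_
          intro P hP _
          have e : o P (f p.1) (f p.2) = ((f p.1).2 - (f p.2).2) * P.1 +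
              ((f p.2).1 - (f p.1).1) * P.2 +
              ((f p.1).1 * (f p.2).2 - (f p.1).2 * (f p.2).1) := by
            unfold o
            ring
          rw [e]
          exact hP
      · show Dense {P : ℝ × ℝ | P.1 - (f u).1 ≠ 0}
        have h2 := dense_affine 1 0 (-(f u).1) (Or.inl one_ne_zero)
        refine h2.mono ?_
        intro P hP
        have e : P.1 - (f u).1 = 1 * P.1 + 0 * P.2 + -(f u).1 := by ring
        show P.1 - (f u).1 ≠ 0
        rw [e]
        exact hP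
  refine h1.mono ?_
  intro P hP
  rw [Set.mem_iInter] at hP
  exact ⟨fun u v => hP (Sum.inl (u, v)), fun u => hP (Sum.inr u)⟩

/-! ### The number of the faces around a generic point -/

theorem gnr_of {V : Type} {f : V → ℝ × ℝ} {P : ℝ × ℝ}
    (hP1 : ∀ u v, f u ≠ f v → o P (f u) (f v) ≠ 0) (hP2 : ∀ u, P.1 - (f u).1 ≠ 0) {u v w : V}
    (hp : 0 < o (f u) (f v) (f w)) : Gnr P (f u) (f v) (f w) := by
  refine ⟨hP2 u, hP2 v, hP2 w, hP1 u v ?_, hP1 v w ?_, hP1 w u ?_⟩
  · intro he
    rw [he] at hp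
    unfold o at hp
    nlinarith
  · intro he
    rw [he] at hp
    unfold o at hp
    nlinarith
  · intro he
    rw [he] at hp
    unfold o at hp
    nlinarith

open Classical in
theorem count_le {V : Type} [Fintype V] {a b c : V} {E : V → V → Prop} {F : V → V → V → Prop}
    {f : V → ℝ × ℝ} (h : NT a b [a, c, b] E F) (hac : a ≠ c) (hbc : b ≠ c)
    (hf : ∀ x y z, F x y z → 0 < o (f x) (f y) (f z)) (habc : 0 < o (f a) (f b) (f c))
    {P : ℝ × ℝ} (hP1 : ∀ u v, f u ≠ f v → o P (f u) (f v) ≠ 0) (hP2 : ∀ u, P.1 - (f u).1 ≠ 0) :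
    ∑ u, ∑ v, ∑ w, (if F u v w ∧ ind P (f u) (f v) (f w) then (1 : ℤ) else 0) ≤ 3 := by
  have e1 : ∀ u v w, (if F u v w ∧ ind P (f u) (f v) (f w) then (1 : ℤ) else 0) =
      (if F u v w then chi P (f u) (f v) else 0) + (if F v w u then chi P (f v) (f w) else 0) +
      (if F w u v then chi P (f w) (f u) else 0) := by
    intro u v w
    by_cases hF : F u v w
    · rw [if_pos hF, if_pos (h.rot _ _ _ hF), if_pos (h.rot _ _ _ (h.rot _ _ _ hF)),
        chi_tri (gnr_of hP1 hP2 (hf _ _ _ hF)) (hf _ _ _ hF)]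
      by_cases hi : ind P (f u) (f v) (f w)
      · rw [if_pos ⟨hF, hi⟩, if_pos hi]
      · rw [if_neg (fun h' => hi h'.2), if_neg hi]
    · rw [if_neg (fun h' => hF h'.1), if_neg hF, if_neg (fun h' => hF (h.rot _ _ _
        (h.rot _ _ _ h'))), if_neg (fun h' => hF (h.rot _ _ _ h'))]
      rfl
  simp_rw [e1]
  simp only [Finset.sum_add_distrib]
  rw [sum_rot (fun u v w => if F u v w then chi P (f u) (f v) else 0),
    ← sum_rot (fun u v w => if F w u v then chi P (f w) (f u) else 0),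
    sum_faces h hac hbc (fun u v => chi P (f u) (f v)) (fun u v => chi_anti P (f u) (f v)),
    chi_tri (gnr_of hP1 hP2 habc) habc]
  split_ifs <;> norm_num

/-! ### The theorem -/

theorem not_left {V : Type} {a b c : V} {E : V → V → Prop} {F : V → V → V → Prop}
    {f : V → ℝ × ℝ} (hg : GdT a b c E F f) {v : V} (hv : Rel E v) :
    ¬ 0 < o (f b) (f a) (f v) ∧ ¬ 0 < o (f a) (f c) (f v) ∧ ¬ 0 < o (f c) (f b) (f v) := by
  have e1 : o (f b) (f a) (f v) = - o (f a) (f b) (f v) := by unfold o; ring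
  have e2 : o (f a) (f c) (f v) = - o (f c) (f a) (f v) := by unfold o; ring
  have e3 : o (f c) (f b) (f v) = - o (f b) (f c) (f v) := by unfold o; ring
  rw [e1, e2, e3]
  have ht := hg.tri
  by_cases ha : v = a
  · subst ha
    have g1 : o (f v) (f b) (f v) = 0 := by unfold o; ring
    have g2 : o (f c) (f v) (f v) = 0 := by unfold o; ring
    have g3 : o (f b) (f c) (f v) = o (f v) (f b) (f c) := by unfold o; ring
    rw [g1, g2, g3]
    refine ⟨by norm_num, by norm_num, by linarith⟩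
  by_cases hb : v = b
  · subst hb
    have g1 : o (f a) (f v) (f v) = 0 := by unfold o; ring
    have g2 : o (f v) (f c) (f v) = 0 := by unfold o; ring
    have g3 : o (f c) (f a) (f v) = o (f a) (f v) (f c) := by unfold o; ring
    rw [g1, g2, g3]
    refine ⟨by norm_num, by linarith, by norm_num⟩
  by_cases hc : v = c
  · subst hc
    have g1 : o (f v) (f a) (f v) = 0 := by unfold o; ring
    have g2 : o (f b) (f v) (f v) = 0 := by unfold o; ring
    rw [g1, g2]
    refine ⟨by linarith, by norm_num, by norm_num⟩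
  obtain ⟨i1, i2, i3⟩ := hg.ins v ⟨ha, hb, hc, hv⟩
  exact ⟨by linarith, by linarith, by linarith⟩

theorem fpl_face {V : Type} [Fintype V] {a b c : V} {E : V → V → Prop} {F : V → V → V → Prop}
    {f : V → ℝ × ℝ} (h : NT a b [a, c, b] E F) (hg : GdT a b c E F f) {p q v : V} (hpq : E p q)
    (hv : Rel E v) (hl : 0 < o (f p) (f q) (f v)) : ∃ r, F p q r := by
  obtain ⟨n1, n2, n3⟩ := not_left hg hv
  rcases face_ex h p q hpq with ⟨rfl, rfl⟩ | ⟨rfl, rfl⟩ | ⟨rfl, rfl⟩ | hr
  · exact absurd hl n1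
  · exact absurd hl n2
  · exact absurd hl n3
  · exact hr

/-- a point inside both triangles -/
theorem both {x y w z t r : ℝ × ℝ} (h1 : 0 < o x y z) (h2 : o x y t < 0) (h3 : 0 < o z t y)
    (h4 : o z t x < 0) (hw : 0 < o x y w) (hr : 0 < o z t r) :
    ∃ P : ℝ × ℝ, ind P x y w ∧ ind P z t r := by
  set δ : ℝ := o x y z - o x y t with hδ
  have hδ0 : 0 < δ := by rw [hδ]; linarith
  have hδ' : δ = o z t y - o z t x := by rw [hδ]; unfold o; ring
  set X : ℝ × ℝ := ((o z t y * x.1 - o z t x * y.1) / δ, (o z t y * x.2 - o z t x * y.2) / δ)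
    with hX
  have hX1 : δ * X.1 = o z t y * x.1 - o z t x * y.1 := by
    rw [hX]
    field_simp
  have hX2 : δ * X.2 = o z t y * x.2 - o z t x * y.2 := by
    rw [hX]
    field_simp
  have hX3 : δ * X.1 = - o x y t * z.1 + o x y z * t.1 := by
    rw [hX1]
    unfold o
    ring
  have hX4 : δ * X.2 = - o x y t * z.2 + o x y z * t.2 := by
    rw [hX2]
    unfold o
    ring
  set d : ℝ × ℝ := (y.1 - x.1 - (t.1 - z.1), y.2 - x.2 - (t.2 - z.2)) with hd
  have c1 : Continuous (fun ε : ℝ => o (X.1 + ε * d.1, X.2 + ε * d.2) y w) := by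
    unfold o; fun_prop
  have c2 : Continuous (fun ε : ℝ => o (X.1 + ε * d.1, X.2 + ε * d.2) w x) := by
    unfold o; fun_prop
  have c3 : Continuous (fun ε : ℝ => o (X.1 + ε * d.1, X.2 + ε * d.2) t r) := by
    unfold o; fun_prop
  have c4 : Continuous (fun ε : ℝ => o (X.1 + ε * d.1, X.2 + ε * d.2) r z) := by
    unfold o; fun_prop
  have p1 : 0 < o (X.1 + 0 * d.1, X.2 + 0 * d.2) y w := by
    have e : δ * o (X.1 + 0 * d.1, X.2 + 0 * d.2) y w = o z t y * o x y w := by
      have e0 : δ * o (X.1 + 0 * d.1, X.2 + 0 * d.2) y w =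
        (δ * y.1 - δ * X.1) * (w.2 - X.2) - (δ * y.2 - δ * X.2) * (w.1 - X.1) := by
        unfold o
        ring
      have e5 : δ * (δ * o (X.1 + 0 * d.1, X.2 + 0 * d.2) y w) = δ * (o z t y * o x y w) := by
        have e6 : δ * (δ * o (X.1 + 0 * d.1, X.2 + 0 * d.2) y w) =
          (δ * y.1 - δ * X.1) * (δ * w.2 - δ * X.2) - (δ * y.2 - δ * X.2) * (δ * w.1 - δ * X.1) := by
          rw [e0]
          ring
        rw [e6, hX1, hX2, hδ']
        unfold o
        ring
      exact mul_left_cancel₀ hδ0.ne' e5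
    have : 0 < δ * o (X.1 + 0 * d.1, X.2 + 0 * d.2) y w := by rw [e]; exact mul_pos h3 hw
    exact (pos_iff_pos_of_mul_pos this).1 hδ0
  have p2 : 0 < o (X.1 + 0 * d.1, X.2 + 0 * d.2) w x := by
    have e5 : δ * (δ * o (X.1 + 0 * d.1, X.2 + 0 * d.2) w x) = δ * (- o z t x * o x y w) := by
      have e6 : δ * (δ * o (X.1 + 0 * d.1, X.2 + 0 * d.2) w x) =
        (δ * w.1 - δ * X.1) * (δ * x.2 - δ * X.2) - (δ * w.2 - δ * X.2) * (δ * x.1 - δ * X.1) := by
        unfold o
        ring
      rw [e6, hX1, hX2, hδ']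
      unfold o
      ring
    have e := mul_left_cancel₀ hδ0.ne' e5
    have : 0 < δ * o (X.1 + 0 * d.1, X.2 + 0 * d.2) w x := by
      rw [e]; exact mul_pos (by linarith) hw
    exact (pos_iff_pos_of_mul_pos this).1 hδ0
  have p3 : 0 < o (X.1 + 0 * d.1, X.2 + 0 * d.2) t r := by
    have e5 : δ * (δ * o (X.1 + 0 * d.1, X.2 + 0 * d.2) t r) = δ * (- o x y t * o z t r) := by
      have e6 : δ * (δ * o (X.1 + 0 * d.1, X.2 + 0 * d.2) t r) =
        (δ * t.1 - δ * X.1) * (δ * r.2 - δ * X.2) - (δ * t.2 - δ * X.2) * (δ * r.1 - δ * X.1) := by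
        unfold o
        ring
      rw [e6, hX3, hX4, hδ]
      unfold o
      ring
    have e := mul_left_cancel₀ hδ0.ne' e5
    have : 0 < δ * o (X.1 + 0 * d.1, X.2 + 0 * d.2) t r := by
      rw [e]; exact mul_pos (by linarith) hr
    exact (pos_iff_pos_of_mul_pos this).1 hδ0
  have p4 : 0 < o (X.1 + 0 * d.1, X.2 + 0 * d.2) r z := by
    have e5 : δ * (δ * o (X.1 + 0 * d.1, X.2 + 0 * d.2) r z) = δ * (o x y z * o z t r) := by
      have e6 : δ * (δ * o (X.1 + 0 * d.1, X.2 + 0 * d.2) r z) =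
        (δ * r.1 - δ * X.1) * (δ * z.2 - δ * X.2) - (δ * r.2 - δ * X.2) * (δ * z.1 - δ * X.1) := by
        unfold o
        ring
      rw [e6, hX3, hX4, hδ]
      unfold o
      ring
    have e := mul_left_cancel₀ hδ0.ne' e5
    have : 0 < δ * o (X.1 + 0 * d.1, X.2 + 0 * d.2) r z := by
      rw [e]; exact mul_pos h1 hr
    exact (pos_iff_pos_of_mul_pos this).1 hδ0
  have v1 : ∀ᶠ ε in nhds (0 : ℝ), 0 < o (X.1 + ε * d.1, X.2 + ε * d.2) y w :=
    (isOpen_lt continuous_const c1).mem_nhds p1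
  have v2 : ∀ᶠ ε in nhds (0 : ℝ), 0 < o (X.1 + ε * d.1, X.2 + ε * d.2) w x :=
    (isOpen_lt continuous_const c2).mem_nhds p2
  have v3 : ∀ᶠ ε in nhds (0 : ℝ), 0 < o (X.1 + ε * d.1, X.2 + ε * d.2) t r :=
    (isOpen_lt continuous_const c3).mem_nhds p3
  have v4 : ∀ᶠ ε in nhds (0 : ℝ), 0 < o (X.1 + ε * d.1, X.2 + ε * d.2) r z :=
    (isOpen_lt continuous_const c4).mem_nhds p4
  have v5 : ∀ᶠ ε in nhdsWithin (0 : ℝ) (Set.Ioi 0), (0 : ℝ) < ε := self_mem_nhdsWithin
  obtain ⟨ε, ⟨⟨q1, q2⟩, q3, q4⟩, hε⟩ := ((((v1.and v2).and (v3.and v4)).filter_mono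
    nhdsWithin_le_nhds).and v5).exists
  refine ⟨(X.1 + ε * d.1, X.2 + ε * d.2), ⟨?_, q1, q2⟩, ?_, q3, q4⟩
  · have e5 : δ * o (X.1 + ε * d.1, X.2 + ε * d.2) x y = δ * (ε * δ) := by
      have e6 : δ * o (X.1 + ε * d.1, X.2 + ε * d.2) x y =
        (δ * x.1 - δ * X.1) * (y.2 - x.2) - (δ * x.2 - δ * X.2) * (y.1 - x.1) +
          δ * (ε * (d.2 * (y.1 - x.1) - d.1 * (y.2 - x.2))) := by
        unfold o
        ring
      rw [e6, hX1, hX2, hδ', hd]
      unfold o
      ring
    rw [mul_left_cancel₀ hδ0.ne' e5]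
    exact mul_pos hε hδ0
  · have e5 : δ * o (X.1 + ε * d.1, X.2 + ε * d.2) z t = δ * (ε * δ) := by
      have e6 : δ * o (X.1 + ε * d.1, X.2 + ε * d.2) z t =
        (δ * z.1 - δ * X.1) * (t.2 - z.2) - (δ * z.2 - δ * X.2) * (t.1 - z.1) +
          δ * (ε * (d.2 * (t.1 - z.1) - d.1 * (t.2 - z.2))) := by
        unfold o
        ring
      rw [e6, hX3, hX4, hδ, hd]
      unfold o
      ring
    rw [mul_left_cancel₀ hδ0.ne' e5]
    exact mul_pos hε hδ0

theorem isOpen_ind (u v w : ℝ × ℝ) : IsOpen {P | ind P u v w} := by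
  have c1 : Continuous (fun P : ℝ × ℝ => o P u v) := by unfold o; fun_prop
  have c2 : Continuous (fun P : ℝ × ℝ => o P v w) := by unfold o; fun_prop
  have c3 : Continuous (fun P : ℝ × ℝ => o P w u) := by unfold o; fun_prop
  exact (isOpen_lt continuous_const c1).inter ((isOpen_lt continuous_const c2).inter
    (isOpen_lt continuous_const c3))

theorem ind_rot {P u v w : ℝ × ℝ} (h : ind P u v w) : ind P v w u := ⟨h.2.1, h.2.2, h.1⟩

open Classical in
theorem fpl_key {V : Type} [Fintype V] {a b c : V} {E : V → V → Prop} {F : V → V → V → Prop}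
    {f : V → ℝ × ℝ} (h : NT a b [a, c, b] E F) (hg : GdT a b c E F f) {x y z t : V}
    (hxy : E x y) (hzt : E z t) (h1 : 0 < o (f x) (f y) (f z)) (h2 : o (f x) (f y) (f t) < 0)
    (h3 : 0 < o (f z) (f t) (f y)) (h4 : o (f z) (f t) (f x) < 0) : False := by
  have hnd := h.nd
  have hac : a ≠ c := by
    intro he
    subst he
    simp at hnd
  have hbc : b ≠ c := by
    intro he
    subst he
    simp at hnd
  obtain ⟨w, hw⟩ := fpl_face h hg hxy ⟨t, hzt⟩ h1
  obtain ⟨r, hr⟩ := fpl_face h hg hzt ⟨x, h.sym _ _ hxy⟩ h3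
  obtain ⟨P0, hP0, hP0'⟩ := both h1 h2 h3 h4 (hg.fac _ _ _ hw) (hg.fac _ _ _ hr)
  obtain ⟨P, ⟨hPi, hPi'⟩, hP1, hP2⟩ := (dense_gen f).inter_open_nonempty
    ({P | ind P (f x) (f y) (f w)} ∩ {P | ind P (f z) (f t) (f r)})
    ((isOpen_ind _ _ _).inter (isOpen_ind _ _ _)) ⟨P0, hP0, hP0'⟩
  have hle := count_le h hac hbc hg.fac hg.tri hP1 hP2
  -- the vertices are different
  have d1 : x ≠ y := fun he => h.irr x (by rw [← he] at hxy; exact hxy)
  have d2 : z ≠ t := fun he => h.irr z (by rw [← he] at hzt; exact hzt)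
  have hyw := h.fe _ _ _ (h.rot _ _ _ hw)
  have hwx := h.fe _ _ _ (h.rot _ _ _ (h.rot _ _ _ hw))
  have htr := h.fe _ _ _ (h.rot _ _ _ hr)
  have hrz := h.fe _ _ _ (h.rot _ _ _ (h.rot _ _ _ hr))
  have d3 : y ≠ w := fun he => h.irr y (by rw [← he] at hyw; exact hyw)
  have d4 : w ≠ x := fun he => h.irr w (by rw [← he] at hwx; exact hwx)
  have d5 : t ≠ r := fun he => h.irr t (by rw [← he] at htr; exact htr)
  have d6 : r ≠ z := fun he => h.irr r (by rw [← he] at hrz; exact hrz)
  have d7 : x ≠ z := by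
    intro he
    rw [he] at h1
    unfold o at h1
    nlinarith
  have d8 : x ≠ t := by
    intro he
    rw [he] at h2
    unfold o at h2
    nlinarith
  have d9 : y ≠ z := by
    intro he
    rw [he] at h1
    unfold o at h1
    nlinarith
  have d10 : y ≠ t := by
    intro he
    rw [he] at h2
    unfold o at h2
    nlinarith
  set g : V × V × V → ℤ := fun p => if F p.1 p.2.1 p.2.2 ∧
    ind P (f p.1) (f p.2.1) (f p.2.2) then (1 : ℤ) else 0 with hgd
  have hsum : ∑ p, g p =
      ∑ u, ∑ v, ∑ w, (if F u v w ∧ ind P (f u) (f v) (f w) then (1 : ℤ) else 0) := by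
    rw [Fintype.sum_prod_type]
    refine Finset.sum_congr rfl fun u _ => ?_
    rw [Fintype.sum_prod_type]
  have hg1 : ∀ u v w, F u v w → ind P (f u) (f v) (f w) → g (u, v, w) = 1 := by
    intro u v w k1 k2
    exact if_pos ⟨k1, k2⟩
  have hg0 : ∀ p, 0 ≤ g p := by
    intro p
    rw [hgd]
    show (0 : ℤ) ≤ if _ then _ else _
    split_ifs <;> norm_num
  have hge := Finset.sum_le_univ_sum_of_nonneg (s := ({(x, y, w), (y, w, x), (w, x, y),
    (z, t, r), (t, r, z), (r, z, t)} : Finset (V × V × V))) hg0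
  rw [hsum] at hge
  rw [Finset.sum_insert, Finset.sum_insert, Finset.sum_insert, Finset.sum_insert,
    Finset.sum_insert, Finset.sum_singleton, hg1 _ _ _ hw hPi,
    hg1 _ _ _ (h.rot _ _ _ hw) (ind_rot hPi),
    hg1 _ _ _ (h.rot _ _ _ (h.rot _ _ _ hw)) (ind_rot (ind_rot hPi)),
    hg1 _ _ _ hr hPi', hg1 _ _ _ (h.rot _ _ _ hr) (ind_rot hPi'),
    hg1 _ _ _ (h.rot _ _ _ (h.rot _ _ _ hr)) (ind_rot (ind_rot hPi'))] at hge
  · omega
  · simp only [Finset.mem_singleton, Prod.mk.injEq, not_and]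
    intro k
    exact absurd k.symm d5.symm
  · simp only [Finset.mem_insert, Finset.mem_singleton, Prod.mk.injEq, not_or, not_and]
    exact ⟨fun k => absurd k d2, fun k => absurd k d6.symm⟩
  · simp only [Finset.mem_insert, Finset.mem_singleton, Prod.mk.injEq, not_or, not_and]
    exact ⟨fun _ k => absurd k d8, fun _ _ k => absurd k d9, fun _ k => absurd k d7⟩
  · simp only [Finset.mem_insert, Finset.mem_singleton, Prod.mk.injEq, not_or, not_and]
    exact ⟨fun k => absurd k d3, fun k => absurd k d9, fun k => absurd k d10,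
      fun _ _ k => absurd k d8⟩
  · simp only [Finset.mem_insert, Finset.mem_singleton, Prod.mk.injEq, not_or, not_and]
    exact ⟨fun k => absurd k d1, fun k => absurd k d4.symm, fun k => absurd k d7,
      fun k => absurd k d8, fun _ k => absurd k d9⟩

theorem fpl : FplStmt := by
  intro V _ a b c E F f h hg x y z t hxy hzt hX
  obtain ⟨h1, h2⟩ := hX
  have e : o (f x) (f y) (f z) - o (f x) (f y) (f t) =
      o (f z) (f t) (f y) - o (f z) (f t) (f x) := by
    unfold o
    ring
  have e1 : o (f t) (f z) (f y) = - o (f z) (f t) (f y) := by unfold o; ring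
  have e2 : o (f t) (f z) (f x) = - o (f z) (f t) (f x) := by unfold o; ring
  rcases mul_neg_iff.1 h1 with ⟨p1, p2⟩ | ⟨p1, p2⟩
  · rcases mul_neg_iff.1 h2 with ⟨q1, q2⟩ | ⟨q1, q2⟩
    · linarith
    · exact fpl_key h hg hxy hzt p1 p2 q2 q1
  · rcases mul_neg_iff.1 h2 with ⟨q1, q2⟩ | ⟨q1, q2⟩
    · refine fpl_key h hg hxy (h.sym _ _ hzt) p2 p1 ?_ ?_
      · rw [e1]
        linarith
      · rw [e2]
        linarith
    · linarith

end Pool.Agent.SGY.H95
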